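import Mathlib

/-!
Highly connected monochromatic subgraphs: generalities for a fixed infinite regular cardinal
`lam`. (Generalisation of `Pool.Agent.H.MP_7bf93d_lc.A`, where `lam = ℵ₁`.)
-/

namespace Pool.Agent.J6H40.HCA
open Set Cardinal Relation

universe u

/-- A fixed infinite regular cardinal. -/
class RegCard where
  /-- the cardinal -/
  lam : Cardinal.{u}
  reg : lam.IsRegular

variable [RegCard.{u}] {V : Type u}

/-- the fixed regular cardinal -/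
abbrev lam : Cardinal.{u} := RegCard.lam

lemma a0 : ℵ₀ ≤ lam.{u} := RegCard.reg.aleph0_le

/-- size at most `lam` -/
def Sm (s : Set V) : Prop := #s ≤ lam

/-- size less than `lam` -/
def Co (s : Set V) : Prop := #s < lam

lemma sm_iUnion {ι : Type u} (hι : #ι ≤ lam) (f : ι → Set V) (h : ∀ i, Sm (f i)) :
    Sm (⋃ i, f i) := by
  unfold Sm
  calc #(⋃ i, f i) ≤ #ι * ⨆ i, #(f i) := mk_iUnion_le f
    _ ≤ lam * lam := mul_le_mul' hι (ciSup_le' h)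
    _ = lam := mul_eq_self a0

lemma Sm.mono {s t : Set V} (h : Sm t) (hs : s ⊆ t) : Sm s := (mk_le_mk_of_subset hs).trans h

lemma Sm.union {s t : Set V} (h : Sm s) (h' : Sm t) : Sm (s ∪ t) :=
  (mk_union_le s t).trans ((add_le_add h h').trans (add_eq_self a0).le)

lemma sm_c {s : Set V} (h : Co s) : Sm s := le_of_lt h

lemma Co.mono {s t : Set V} (h : Co t) (hs : s ⊆ t) : Co s :=
  (mk_le_mk_of_subset hs).trans_lt h

lemma co_finite {s : Set V} (h : s.Finite) : Co s :=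
  (Cardinal.lt_aleph0_iff_set_finite.2 h).trans_le a0

lemma co_empty : Co (∅ : Set V) := co_finite finite_empty

lemma Co.union {s t : Set V} (h : Co s) (h' : Co t) : Co (s ∪ t) :=
  (mk_union_le s t).trans_lt (add_lt_of_lt a0 h h')

lemma Co.insert {s : Set V} (h : Co s) (a : V) : Co (insert a s) := by
  rw [insert_eq]; exact (co_finite (finite_singleton a)).union h

lemma co_iUnion {ι : Type u} (hι : #ι < lam) (f : ι → Set V) (h : ∀ i, Co (f i)) :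
    Co (⋃ i, f i) := by
  unfold Co
  refine (mk_iUnion_le f).trans_lt (mul_lt_of_lt a0 hι ?_)
  exact Cardinal.iSup_lt_of_isRegular RegCard.reg hι h

lemma co_biUnion {W : Type u} {s : Set W} (hs : Co s) (f : W → Set V)
    (h : ∀ i ∈ s, Co (f i)) : Co (⋃ i ∈ s, f i) := by
  rw [biUnion_eq_iUnion]
  exact co_iUnion hs _ fun i => h i i.2

lemma Co.image {W : Type u} {s : Set V} (h : Co s) (f : V → W) : Co (f '' s) :=
  mk_image_le.trans_lt h

lemma Co.preimage {W : Type u} {s : Set W} (h : Co s) {f : V → W} (hf : Function.Injective f) :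
    Co (f ⁻¹' s) :=
  (mk_preimage_of_injective f s hf).trans_lt h

lemma co_range {ι : Type u} (h : #ι < lam) (f : ι → V) : Co (range f) := mk_range_le.trans_lt h

lemma pk {Q Z : Set V} (h : ¬ Sm Q) (hz : Sm Z) : ∃ u ∈ Q, u ∉ Z := by
  by_contra hc; push Not at hc; exact h (hz.mono hc)

lemma pkc {Q Z : Set V} (h : ¬ Co Q) (hz : Co Z) : ∃ u ∈ Q, u ∉ Z := by
  by_contra hc; push Not at hc; exact h (hz.mono hc)

omit [RegCard.{u}] in
lemma rc {T α : Type u} [LinearOrder T] [WellFoundedLT T] (Φ : Set α → α → Prop)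
    (h : ∀ S, ∃ y, Φ S y) : ∃ f : T → α, ∀ ζ, Φ (f '' Iio ζ) (f ζ) := by
  choose F hF using h
  let f : T → α := (wellFounded_lt (α := T)).fix
    (fun ζ IH => F {x | ∃ z, ∃ h : z < ζ, IH z h = x})
  refine ⟨f, fun ζ => ?_⟩
  have : f ζ = F (f '' Iio ζ) := by
    show (wellFounded_lt (α := T)).fix _ ζ = _
    rw [WellFounded.fix_eq]; congr 1; ext x; simp [f]
  rw [this]; exact hF _

/-- connected by a path with edges inside `W` -/
def Cn (G : V → V → Prop) (W : Set V) : V → V → Prop :=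
  ReflTransGen (fun a b => a ∈ W ∧ b ∈ W ∧ G a b)

omit [RegCard.{u}] in
lemma Cn.mono {G : V → V → Prop} {W W' : Set V} (h : W ⊆ W') {x y : V} (c : Cn G W x y) :
    Cn G W' x y := by
  induction c with
  | refl => exact ReflTransGen.refl
  | tail _ r ih => exact ReflTransGen.tail ih ⟨h r.1, h r.2.1, r.2.2⟩

omit [RegCard.{u}] in
lemma Cn.symm {G : V → V → Prop} (hG : ∀ a b, G a b → G b a) {W : Set V} {x y : V}
    (c : Cn G W x y) : Cn G W y x := by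
  induction c with
  | refl => exact ReflTransGen.refl
  | tail _ r ih => exact ReflTransGen.head ⟨r.2.1, r.1, hG _ _ r.2.2⟩ ih

omit [RegCard.{u}] in
lemma Cn.fin {G : V → V → Prop} {W : Set V} {x y : V} (c : Cn G W x y) :
    ∃ F : Set V, F.Finite ∧ F ⊆ W ∧ Cn G F x y := by
  induction c with
  | refl => exact ⟨∅, finite_empty, empty_subset _, ReflTransGen.refl⟩
  | @tail b d _ r ih =>
    obtain ⟨F, h1, h2, h3⟩ := ih
    refine ⟨insert b (insert d F), (h1.insert _).insert _, ?_, ?_⟩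
    · exact insert_subset r.1 (insert_subset r.2.1 h2)
    · exact ReflTransGen.tail (h3.mono ((subset_insert _ _).trans (subset_insert _ _)))
        ⟨by simp, by simp, r.2.2⟩

/-- connected after removing any set of size less than `lam` -/
def HC (G : V → V → Prop) (W : Set V) : Prop :=
  ¬ Co W ∧ ∀ S : Set V, Co S → ∀ x ∈ W \ S, ∀ y ∈ W \ S, Cn G (W \ S) x y

/-- a well-order of type `lam` -/
abbrev T1 : Type u := (lam.{u}).ord.ToType

lemma t1c (a : T1) : Co (Iio a) := by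
  unfold Co
  simpa using mk_Iio_lt a (by simp)

lemma t1m : #T1.{u} = lam := by simp

lemma t1b {s : Set T1} (h : Co s) : ∃ g, ∀ a ∈ s, a < g := by
  have h1 : Co (⋃ a ∈ s, insert a (Iio a)) := co_biUnion h _ fun a _ => (t1c a).insert a
  have h2 : ¬ Co (Set.univ : Set T1) := by
    unfold Co
    rw [mk_univ, t1m]; exact lt_irrefl _
  obtain ⟨g, -, hg⟩ := pkc h2 h1
  refine ⟨g, fun a ha => ?_⟩
  by_contra hc
  exact hg (mem_biUnion ha ((not_lt.1 hc).eq_or_lt))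

lemma shrink {G : V → V → Prop} {W : Set V} (h : HC G W) : ∃ A : Set V, #A = lam ∧ HC G A := by
  have step : ∀ 𝒮 : Set (Set V), ∃ A : Set V, Co A ∧ A ⊆ W ∧ (Co (⋃₀ 𝒮) → ⋃₀ 𝒮 ⊆ W →
      (∃ n ∈ A, n ∉ ⋃₀ 𝒮) ∧ ∀ x ∈ ⋃₀ 𝒮, ∀ y ∈ ⋃₀ 𝒮, Cn G (A \ (⋃₀ 𝒮 \ {x, y})) x y) := by
    intro 𝒮
    by_cases hc : Co (⋃₀ 𝒮) ∧ ⋃₀ 𝒮 ⊆ W
    swap
    · exact ⟨∅, co_empty, empty_subset _, fun a b => absurd ⟨a, b⟩ hc⟩
    obtain ⟨hc, hw⟩ := hc
    set U := ⋃₀ 𝒮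
    obtain ⟨n, hn, hn'⟩ := pkc h.1 hc
    have : ∀ x : U, ∀ y : U, ∃ F : Set V, F.Finite ∧ F ⊆ W \ (U \ {x.1, y.1}) ∧ Cn G F x y :=
      fun x y => (h.2 _ (hc.mono sdiff_subset) x ⟨hw x.2, by simp⟩ y ⟨hw y.2, by simp⟩).fin
    choose F h1 h2 h3 using this
    refine ⟨insert n (⋃ x, ⋃ y, F x y), (co_iUnion hc _ fun x => co_iUnion hc _ fun y =>
      co_finite (h1 x y)).insert n,
      insert_subset hn (iUnion₂_subset fun x y => (h2 x y).trans sdiff_subset),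
      fun _ _ => ⟨⟨n, by simp, hn'⟩, fun x hx y hy => (h3 ⟨x, hx⟩ ⟨y, hy⟩).mono fun z hz => ?_⟩⟩
    exact ⟨mem_insert_of_mem _ (mem_iUnion₂.2 ⟨_, _, hz⟩), (h2 _ _ hz).2⟩
  obtain ⟨f, hf⟩ := rc (T := T1.{u}) _ step
  have hU : ∀ ζ, Co (⋃₀ (f '' Iio ζ)) := fun ζ => by
    rw [sUnion_image]
    exact co_biUnion (t1c ζ) _ fun z _ => (hf z).1
  have hW : ∀ ζ, ⋃₀ (f '' Iio ζ) ⊆ W := fun ζ => by
    rintro x ⟨_, ⟨z, -, rfl⟩, hx⟩; exact (hf z).2.1 hx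
  have cov : ∀ S : Set V, Co S → ∃ ζ, S ∩ (⋃ z, f z) ⊆ ⋃₀ (f '' Iio ζ) := by
    intro S hS
    have : ∀ x : ↥(S ∩ ⋃ z, f z), ∃ z, x.1 ∈ f z := fun x => mem_iUnion.1 x.2.2
    choose g hg using this
    have hS' := hS.mono (inter_subset_left (t := ⋃ z, f z))
    obtain ⟨ζ, hζ⟩ := t1b (co_range hS' g)
    exact ⟨ζ, fun x hx => ⟨_, ⟨g ⟨x, hx⟩, hζ _ ⟨_, rfl⟩, rfl⟩, hg ⟨x, hx⟩⟩⟩
  have unc : ¬ Co (⋃ z, f z) := by
    intro hc
    obtain ⟨ζ, hζ⟩ := cov _ hc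
    obtain ⟨n, h1, h2⟩ := ((hf ζ).2.2 (hU ζ) (hW ζ)).1
    exact h2 (hζ ⟨mem_iUnion.2 ⟨_, h1⟩, mem_iUnion.2 ⟨_, h1⟩⟩)
  refine ⟨⋃ z, f z, le_antisymm (sm_iUnion t1m.le f fun z => sm_c (hf z).1) (not_lt.1 unc),
    unc, ?_⟩
  intro S hS x hx y hy
  obtain ⟨ζ, hζ⟩ := cov _ ((hS.insert y).insert x)
  refine (((hf ζ).2.2 (hU ζ) (hW ζ)).2 x (hζ ⟨by simp, hx.1⟩) y (hζ ⟨by simp, hy.1⟩)).mono ?_
  intro z hz
  refine ⟨mem_iUnion.2 ⟨_, hz.1⟩, fun hs => hz.2 ⟨hζ ⟨by simp [hs], mem_iUnion.2 ⟨_, hz.1⟩⟩, ?_⟩⟩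
  rintro (rfl | rfl)
  exacts [hx.2 hs, hy.2 hs]

end Pool.Agent.J6H40.HCA
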