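import Pool.Agent.J6H40.HCA.A

/-!
Highly connected monochromatic subgraphs of size `lam` in graphs on more than `lam` vertices,
with fewer than `lam` colours. (Generalisation of `Pool.Agent.H.MP_7bf93d_lc.B`.)
-/

set_option linter.style.longLine false
set_option linter.dupNamespace false
namespace Pool.Agent.J6H40.HCA
open Set Cardinal Relation

universe u

variable [RegCard.{u}] {V : Type u} (G : V → V → Prop) (X : Set V)

def E : Set V := {u | ¬ Co {a ∈ X | G a u}}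
def H (Q : Set V) (a b : V) : Prop := ¬ Sm {u ∈ Q | G a u ∧ G b u}
def Ev (Q : Set V) (u v : V) : Prop := ∀ S : Set V, Co S → ∀ a ∈ X, a ∉ S → G a u →
  ∀ a' ∈ X, a' ∉ S → G a' v → Cn (H G Q) Sᶜ a a'
def Good (Q : Set V) : Prop := Q ⊆ E G X ∧ ¬ Sm Q ∧ ∃ Z, Sm Z ∧ ∀ u ∈ Q, u ∉ Z → ∀ v ∈ Q, v ∉ Z → Ev G X Q u v

variable {G X}

lemma H.symm {Q : Set V} (a b : V) (h : H G Q a b) : H G Q b a := by
  unfold H at *; simpa only [and_comm] using h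

lemma H.mono {Q Q' : Set V} (hq : Q ⊆ Q') {a b : V} (h : H G Q a b) : H G Q' a b :=
  fun s => h (s.mono fun _ x => ⟨hq x.1, x.2⟩)

lemma Ev.symm {Q : Set V} {u v : V} (h : Ev G X Q u v) : Ev G X Q v u :=
  fun S hS a ha hs g a' ha' hs' g' => (h S hS a' ha' hs' g' a ha hs g).symm H.symm

lemma Ev.trans {Q : Set V} {u v w : V} (hv : v ∈ E G X) (h : Ev G X Q u v) (h' : Ev G X Q v w) :
    Ev G X Q u w := by
  intro S hS a ha hs g a' ha' hs' g'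
  obtain ⟨b, hb, hb'⟩ := pkc hv hS
  exact (h S hS a ha hs g b hb.1 hb' hb.2).trans (h' S hS b hb.1 hb' hb.2 a' ha' hs' g')

/-- atypical points -/
lemma atyp (hX : Sm X) (Q : Set V) (b : V) : Sm {u ∈ Q | G b u ∧ ∃ a ∈ X, G a u ∧ ¬ H G Q a b} := by
  classical
  refine (sm_iUnion hX (fun a : X => if H G Q a b then ∅ else {u ∈ Q | G a u ∧ G b u}) fun a => ?_).mono ?_
  · split_ifs with h
    · exact sm_c co_empty
    · exact not_not.1 h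
  · rintro u ⟨h1, h2, a, ha, h3, h4⟩
    exact mem_iUnion.2 ⟨⟨a, ha⟩, by simp only [if_neg h4]; exact ⟨h1, h3, h2⟩⟩

lemma atyp' (hX : Sm X) (Q : Set V) : Sm {u ∈ Q | ∃ a ∈ X, G a u ∧ ¬ H G Q a a} := by
  refine (sm_iUnion hX (fun a : X => {u ∈ Q | G a u ∧ ∃ a' ∈ X, G a' u ∧ ¬ H G Q a' a})
    fun a => atyp hX Q a).mono ?_
  rintro u ⟨h1, a, ha, h3, h4⟩
  exact mem_iUnion.2 ⟨⟨a, ha⟩, h1, h3, a, ha, h3, h4⟩

lemma good_hc (hG : ∀ a b, G a b → G b a) (hX : Sm X) {Q : Set V} (h : Good G X Q) : ∃ W, HC G W := by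
  obtain ⟨hE, hQ, Z, hZ, hev⟩ := h
  set Z' := Z ∪ {u ∈ Q | ∃ a ∈ X, G a u ∧ ¬ H G Q a a}
  have hZ' : Sm Z' := hZ.union (atyp' hX Q)
  set W := {b | H G Q b b} ∪ (Q \ Z')
  refine ⟨W, fun hc => hQ ((hZ'.union (sm_c hc)).mono fun u hu => ?_), fun S hS => ?_⟩
  · by_cases h : u ∈ Z'
    exacts [Or.inl h, Or.inr (Or.inr ⟨hu, h⟩)]
  have e1 : ∀ a b, a ∉ S → b ∉ S → H G Q a b → Cn G (W \ S) a b := by
    intro a b ha hb h
    obtain ⟨u, hu, hu'⟩ := pk h (hZ'.union (sm_c hS))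
    have h1 : u ∈ W \ S := ⟨Or.inr ⟨hu.1, fun x => hu' (Or.inl x)⟩, fun x => hu' (Or.inr x)⟩
    have h2 : a ∈ W \ S := ⟨Or.inl fun s => h (s.mono fun _ x => ⟨x.1, x.2.1, x.2.1⟩), ha⟩
    have h3 : b ∈ W \ S := ⟨Or.inl fun s => h (s.mono fun _ x => ⟨x.1, x.2.2, x.2.2⟩), hb⟩
    exact (ReflTransGen.single ⟨h2, h1, hu.2.1⟩).tail ⟨h1, h3, hG _ _ hu.2.2⟩
  have e2 : ∀ a b, Cn (H G Q) Sᶜ a b → Cn G (W \ S) a b := by
    intro a b c
    induction c with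
    | refl => exact ReflTransGen.refl
    | tail _ r ih => exact ih.trans (e1 _ _ r.1 r.2.1 r.2.2)
  have e3 : ∀ u ∈ Q \ Z', u ∉ S → ∃ a ∈ X, a ∉ S ∧ G a u ∧ Cn G (W \ S) u a := by
    intro u hu hs
    obtain ⟨a, ha, ha'⟩ := pkc (hE hu.1) hS
    refine ⟨a, ha.1, ha', ha.2, ReflTransGen.single ⟨⟨Or.inr hu, hs⟩, ⟨Or.inl ?_, ha'⟩, hG _ _ ha.2⟩⟩
    by_contra hc
    exact hu.2 (Or.inr ⟨hu.1, a, ha.1, ha.2, hc⟩)
  have e4 : ∀ x ∈ W \ S, ∃ u ∈ Q \ Z', ∃ a ∈ X, a ∉ S ∧ G a u ∧ Cn G (W \ S) x a := by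
    intro x hx
    rcases hx.1 with h | h
    · obtain ⟨u, hu, hu'⟩ := pk h (hZ'.union (sm_c hS))
      have h0 : u ∈ Q \ Z' := ⟨hu.1, fun x => hu' (Or.inl x)⟩
      obtain ⟨a, h1, h2, h3, h4⟩ := e3 u h0 fun x => hu' (Or.inr x)
      exact ⟨u, h0, a, h1, h2, h3, ReflTransGen.head ⟨hx, ⟨Or.inr h0, fun x => hu' (Or.inr x)⟩, hu.2.1⟩ h4⟩
    · obtain ⟨a, h1, h2, h3, h4⟩ := e3 x h hx.2
      exact ⟨x, h, a, h1, h2, h3, h4⟩
  intro x hx y hy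
  obtain ⟨u, hu, a, h1, h2, h3, h4⟩ := e4 x hx
  obtain ⟨v, hv, a', k1, k2, k3, k4⟩ := e4 y hy
  exact (h4.trans (e2 _ _ (hev u hu.1 (fun x => hu.2 (Or.inl x)) v hv.1 (fun x => hv.2 (Or.inl x))
    S hS a h1 h2 h3 a' k1 k2 k3))).trans (k4.symm hG)

/-- a well-order of type `lam⁺` -/
abbrev T2 : Type u := (Order.succ lam.{u}).ord.ToType

lemma t2c (a : T2) : #(Iio a) ≤ lam := by
  rw [← Order.lt_succ_iff]; simpa using mk_Iio_lt a (by simp)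

lemma t2m : ¬ #T2.{u} ≤ lam := by
  rw [mk_ord_toType]; exact (Order.lt_succ _).not_ge

variable (G X) in
def R : T2 → V → V → Prop := (wellFounded_lt (α := T2)).fix
  (fun α IH u v => ∀ β (h : β < α), Ev G X {w | w ∈ E G X ∧ IH β h u w} u v)

variable (G X) in
def cl (α : T2) (u : V) : Set V := {w | w ∈ E G X ∧ R G X α u w}

lemma R_iff {α : T2} {u v : V} : R G X α u v ↔ ∀ β < α, Ev G X (cl G X β u) u v := by
  unfold R; rw [WellFounded.fix_eq]; rfl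

lemma R.mono {α β : T2} (h : β ≤ α) {u v : V} (r : R G X α u v) : R G X β u v :=
  R_iff.2 fun γ hγ => R_iff.1 r γ (hγ.trans_le h)

lemma per (α : T2) : ∀ u ∈ E G X, ∀ v ∈ E G X, R G X α u v → cl G X α u = cl G X α v := by
  induction α using WellFoundedLT.induction with
  | ind α ih =>
    intro u hu v hv r
    ext w
    refine and_congr_right fun _ => ⟨fun r' => R_iff.2 fun β hβ => ?_, fun r' => R_iff.2 fun β hβ => ?_⟩
    · rw [← ih β hβ u hu v hv (r.mono hβ.le)]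
      exact (R_iff.1 r β hβ).symm.trans hu (R_iff.1 r' β hβ)
    · have := R_iff.1 r' β hβ
      rw [← ih β hβ u hu v hv (r.mono hβ.le)] at this
      exact (R_iff.1 r β hβ).trans hv this

variable (G X) in
def OK (b : V) (α : T2) : Prop := ∃ Z, Sm Z ∧ ∀ u ∈ E G X, G b u → u ∉ Z → ∀ v ∈ E G X, G b v → v ∉ Z →
  Ev G X (cl G X α u) u v

lemma lim {b : V} {α : T2} (h : ∀ β < α, OK G X b β) :
    ∃ Z, Sm Z ∧ ∀ u ∈ E G X, G b u → u ∉ Z → ∀ v ∈ E G X, G b v → v ∉ Z → R G X α u v := by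
  choose Z h1 h2 using h
  refine ⟨⋃ β : Iio α, Z β β.2, sm_iUnion (t2c α) _ fun β => h1 _ _, fun u hu g z v hv g' z' =>
    R_iff.2 fun β hβ => h2 β hβ u hu g (fun x => z (mem_iUnion.2 ⟨⟨β, hβ⟩, x⟩)) v hv g'
      fun x => z' (mem_iUnion.2 ⟨⟨β, hβ⟩, x⟩)⟩

lemma fail (hX : Sm X) (ng : ∀ Q, ¬ Good G X Q) {b : V} (hb : ¬ Sm {u ∈ E G X | G b u}) :
    ∃ α, ¬ OK G X b α := by
  by_contra hc
  push Not at hc
  have key : ∀ α : T2, ∃ a : X, ∃ Z, Sm Z ∧ ∀ u ∈ E G X, G b u → u ∉ Z →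
      H G (cl G X α u) a a ∧ ∀ w, Ev G X (cl G X α u) u w → ¬ G a w := by
    intro α
    obtain ⟨Z, hZ, h⟩ := lim fun β (_ : β < α) => hc β
    obtain ⟨Z1, hZ1, h1⟩ := hc α
    obtain ⟨u, hu, hu'⟩ := pk hb (hZ.union hZ1)
    have z : u ∉ Z := fun x => hu' (Or.inl x)
    have hQ : ¬ Sm (cl G X α u) := fun s => hb ((s.union hZ).mono fun v hv => by
      by_cases z' : v ∈ Z
      exacts [Or.inr z', Or.inl ⟨hv.1, h u hu.1 hu.2 z v hv.1 hv.2 z'⟩])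
    have := ng (cl G X α u)
    simp only [Good, not_and, not_exists, not_forall] at this
    obtain ⟨v, hv, zv, v', hv', zv', hn⟩ := this (fun _ x => x.1) hQ _ (atyp' hX (cl G X α u))
    have : ∃ v ∈ cl G X α u, v ∉ {u_1 ∈ cl G X α u | ∃ a ∈ X, G a u_1 ∧ ¬ H G (cl G X α u) a a} ∧
        ¬ Ev G X (cl G X α u) v u := by
      by_contra hd
      push Not at hd
      exact hn ((hd v hv zv).trans hu.1 (hd v' hv' zv').symm)
    obtain ⟨v, hv, zv, hn⟩ := this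
    simp only [Ev, not_forall] at hn
    obtain ⟨S, hS, a, ha, hs, g, a', ha', hs', g', hn⟩ := hn
    refine ⟨⟨a, ha⟩, Z ∪ Z1, hZ.union hZ1, fun u' eu' gu' zu' => ?_⟩
    have e := per α u hu.1 u' eu' (h u hu.1 hu.2 z u' eu' gu' fun x => zu' (Or.inl x))
    rw [← e]
    refine ⟨by by_contra hd; exact zv ⟨hv, a, ha, g, hd⟩, fun w hw gw => hn ?_⟩
    exact ((h1 u hu.1 hu.2 (fun x => hu' (Or.inr x)) u' eu' gu' fun x => zu' (Or.inr x)).trans eu' hw).symm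
      S hS a ha hs gw a' ha' hs' g'
  choose a Z hZ h using key
  have lt : ∀ α β, α < β → a α ≠ a β := by
    intro α β hl e
    obtain ⟨u, hu, hu'⟩ := pk hb ((hZ α).union (hZ β))
    obtain ⟨w, hw, -⟩ := pk (h β u hu.1 hu.2 fun x => hu' (Or.inr x)).1 (sm_c co_empty)
    exact (h α u hu.1 hu.2 fun x => hu' (Or.inl x)).2 w (R_iff.1 hw.1.2 α hl) (by rw [e]; exact hw.2.1)
  refine t2m ((mk_le_of_injective (f := a) fun α β e => ?_).trans hX)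
  rcases lt_trichotomy α β with l | l | l
  exacts [absurd e (lt _ _ l), l, absurd e.symm (lt _ _ l)]

lemma wit (hX : Sm X) (hn : X.Nonempty) (ng : ∀ Q, ¬ Good G X Q) (b : V) :
    ∃ (α : T2.{u}) (Z S : Set V) (p : V × V), Sm Z ∧ Co S ∧ p ∈ X ×ˢ X ∧ ∀ u ∈ E G X, G b u → u ∉ Z →
      p.1 ∉ S ∧ p.2 ∉ S ∧ H G (cl G X α u) p.1 b ∧ H G (cl G X α u) p.2 b ∧
        ¬ Cn (H G (cl G X α u)) Sᶜ p.1 p.2 := by
  by_cases hb : Sm {u ∈ E G X | G b u}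
  · obtain ⟨x, hx⟩ := hn
    have : Nonempty T2 := by
      by_contra hc; rw [not_nonempty_iff] at hc; exact t2m (by simp)
    exact ⟨Classical.arbitrary _, _, ∅, (x, x), hb, co_empty, ⟨hx, hx⟩, fun u hu g z => absurd ⟨hu, g⟩ z⟩
  obtain ⟨α, hα, hm⟩ := (wellFounded_lt (α := T2)).has_min {α | ¬ OK G X b α} (fail hX ng hb)
  obtain ⟨Z, hZ, h⟩ := lim (G := G) (X := X) (b := b) (α := α) fun β hβ => by
    by_contra hc; exact hm β hc hβ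
  obtain ⟨u0, hu0, z0⟩ := pk hb hZ
  simp only [mem_ofPred_eq, OK, not_exists, not_and, not_forall] at hα
  obtain ⟨u, hu, gu, zu, v, hv, gv, zv, hn⟩ := hα _ (hZ.union (atyp hX (cl G X α u0) b))
  have r1 := h u0 hu0.1 hu0.2 z0 u hu gu fun x => zu (Or.inl x)
  have r2 := h u0 hu0.1 hu0.2 z0 v hv gv fun x => zv (Or.inl x)
  rw [← per α u0 hu0.1 u hu r1] at hn
  simp only [Ev, not_forall] at hn
  obtain ⟨S, hS, a, ha, hs, g, a', ha', hs', g', hn⟩ := hn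
  refine ⟨α, Z, S, (a, a'), hZ, hS, ⟨ha, ha'⟩, fun w hw gw zw => ?_⟩
  rw [← per α u0 hu0.1 w hw (h u0 hu0.1 hu0.2 z0 w hw gw zw)]
  refine ⟨hs, hs', ?_, ?_, hn⟩
  · by_contra hd; exact zu (Or.inr ⟨⟨hu, r1⟩, gu, a, ha, g, hd⟩)
  · by_contra hd; exact zv (Or.inr ⟨⟨hv, r2⟩, gv, a', ha', g', hd⟩)

lemma main (hX : Sm X) (hn : X.Nonempty) (ng : ∀ Q, ¬ Good G X Q) : ∃ w : V → V × V, (∀ b, w b ∈ X ×ˢ X) ∧
    ∀ Y, Sm Y → ∃ Z, Sm Z ∧ ∀ u ∈ E G X, u ∉ Z → ∀ p, Co {b ∈ Y | G b u ∧ w b = p} := by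
  choose α Z S w h1 h2 h3 h4 using wit hX hn ng
  refine ⟨w, h3, fun Y hY => ⟨⋃ b : Y, Z b, sm_iUnion hY _ fun b => h1 b, fun u hu z p => ?_⟩⟩
  rcases {b ∈ Y | G b u ∧ w b = p}.eq_empty_or_nonempty with e | e
  · rw [e]; exact co_empty
  obtain ⟨_, ⟨b, hb, rfl⟩, hm⟩ := (wellFounded_lt (α := T2)).has_min _ (e.image α)
  refine (h2 b).mono fun b' hb' => ?_
  by_contra hc
  have k := h4 b u hu hb.2.1 fun x => z (mem_iUnion.2 ⟨⟨b, hb.1⟩, x⟩)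
  have k' := h4 b' u hu hb'.2.1 fun x => z (mem_iUnion.2 ⟨⟨b', hb'.1⟩, x⟩)
  have sub : cl G X (α b') u ⊆ cl G X (α b) u := fun x hx =>
    ⟨hx.1, hx.2.mono (not_lt.1 (hm _ ⟨b', hb', rfl⟩))⟩
  rw [hb'.2.2, ← hb.2.2] at k'
  exact k.2.2.2.2 ((ReflTransGen.single ⟨k.1, hc, k'.2.2.1.mono sub⟩).tail
    ⟨hc, k.2.1, H.symm _ _ (k'.2.2.2.1.mono sub)⟩)

theorem core {C : Type u} (hC : #C < lam) (hV : ¬ #V ≤ lam) (Γ : C → V → V → Prop)
    (hs : ∀ j a b, Γ j a b → Γ j b a)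
    (hc : ∀ a b, a ≠ b → ∃ j, Γ j a b) : ∃ j, ∃ A : Set V, #A = lam ∧ HC (Γ j) A := by
  by_contra hn
  have unc : ∀ X : Set V, #X = lam → ¬ Co X := fun X h c => by
    unfold Co at c; rw [h] at c; exact lt_irrefl _ c
  have m : ∀ (X : Set V) (j : C), ∃ w : V → V × V, #X = lam → (∀ b, w b ∈ X ×ˢ X) ∧
      ∀ Y, Sm Y → ∃ Z, Sm Z ∧ ∀ u ∈ E (Γ j) X, u ∉ Z → ∀ p, Co {b ∈ Y | Γ j b u ∧ w b = p} := by
    intro X j
    by_cases h : #X = lam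
    · obtain ⟨w, hw⟩ := main (G := Γ j) h.le (by
        by_contra e; rw [not_nonempty_iff_eq_empty] at e; exact unc X h (e ▸ co_empty)) fun Q g => by
          obtain ⟨W, hW⟩ := good_hc (hs j) h.le g
          exact hn ⟨j, shrink hW⟩
      exact ⟨w, fun _ => hw⟩
    · exact ⟨fun b => (b, b), fun h' => absurd h' h⟩
  choose w hw using m
  have step : ∀ 𝒳 : Set (Set V), ∃ Y : Set V, #Y = lam ∧ (Co 𝒳 → (∀ X ∈ 𝒳, #X = lam) →
      ∀ X ∈ 𝒳, ∀ j, Co (w X j '' Y)) := by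
    intro 𝒳
    by_cases h : Co 𝒳 ∧ ∀ X ∈ 𝒳, #X = lam
    swap
    · obtain ⟨Y, -, hY⟩ := (le_mk_iff_exists_subset (c := lam) (s := (Set.univ : Set V))).1
        (by rw [mk_univ]; exact (not_le.1 hV).le)
      exact ⟨Y, hY, fun a b => absurd ⟨a, b⟩ h⟩
    obtain ⟨h1, h2⟩ := h
    set D : Set (V × V) := ⋃ X : 𝒳, X.1 ×ˢ X.1
    have hD : #D ≤ #T1.{u} := by
      rw [t1m]
      refine sm_iUnion (le_of_lt h1) _ fun X => ?_
      unfold Sm; rw [mk_setProd, h2 _ X.2]; simp [mul_eq_self a0]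
    obtain ⟨e⟩ := (Cardinal.le_def _ _).1 hD
    have md : ∀ (X : 𝒳) j b, w X j b ∈ D := fun X j b => mem_iUnion.2 ⟨X, (hw X j (h2 _ X.2)).1 b⟩
    have : ∀ b, ∃ g : T1.{u}, ∀ (X : 𝒳) j, e ⟨_, md X j b⟩ < g := fun b => by
      obtain ⟨g, hg⟩ := t1b (co_range (show #(𝒳 × C) < lam by
        rw [mk_prod, lift_id, lift_id]; exact mul_lt_of_lt a0 h1 hC)
        fun q : 𝒳 × C => e ⟨_, md q.1 q.2 b⟩)
      exact ⟨g, fun X j => hg _ ⟨(X, j), rfl⟩⟩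
    choose g hg using this
    have : ∃ γ, ¬ Sm {b | g b = γ} := by
      by_contra hd
      push Not at hd
      refine hV ?_
      rw [← mk_univ]
      exact (sm_iUnion t1m.le _ hd).mono fun b _ => mem_iUnion.2 ⟨_, rfl⟩
    obtain ⟨γ, hγ⟩ := this
    obtain ⟨Y, hY, hY'⟩ := le_mk_iff_exists_subset.1 (not_le.1 hγ).le
    refine ⟨Y, hY', fun _ _ X hX j => ?_⟩
    refine (((t1c γ).preimage e.injective).image Subtype.val).mono ?_
    rintro _ ⟨b, hb, rfl⟩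
    exact ⟨⟨_, md ⟨X, hX⟩ j b⟩, by have := hg b ⟨X, hX⟩ j; rwa [hY hb] at this, rfl⟩
  obtain ⟨f, hf⟩ := rc (T := T1.{u}) _ step
  have hz : ∀ q : T1.{u} × C × T1.{u}, ∃ Z, Sm Z ∧ ∀ u ∈ E (Γ q.2.1) (f q.1), u ∉ Z → ∀ p,
      Co {b ∈ f q.2.2 | Γ q.2.1 b u ∧ w (f q.1) q.2.1 b = p} := fun q =>
    (hw _ _ (hf q.1).1).2 _ (hf q.2.2).1.le
  choose Z hZ hZ' using hz
  have s1 : Sm (⋃ q, Z q) := sm_iUnion (by
    simp only [mk_prod, lift_id, t1m]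
    calc lam * (#C * lam) ≤ lam * (lam * lam) :=
          mul_le_mul' le_rfl (mul_le_mul' hC.le le_rfl)
      _ = lam := by rw [mul_eq_self a0, mul_eq_self a0]) _ hZ
  obtain ⟨u, -, hu⟩ := pk (Q := Set.univ) (by unfold Sm; rwa [mk_univ]) s1
  have : ∀ ζ, ∃ j, u ∈ E (Γ j) (f ζ) := fun ζ => by
    by_contra hd
    push Not at hd
    refine unc _ (hf ζ).1 (((co_iUnion hC _ fun j => not_not.1 (hd j)).insert u).mono fun a ha => ?_)
    by_cases e : a = u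
    · exact Or.inl e
    · obtain ⟨j, hj⟩ := hc a u e
      exact Or.inr (mem_iUnion.2 ⟨j, ha, hj⟩)
  choose J hJ using this
  have lt : ∀ α β, α < β → J α ≠ J β := by
    intro α β hl e
    have c := (hf β).2 ((t1c β).image f) (by rintro _ ⟨z, -, rfl⟩; exact (hf z).1) _
      ⟨α, hl, rfl⟩ (J α)
    refine hJ β ((co_biUnion c _ fun p _ => hZ' (α, J α, β) u (hJ α)
      (fun x => hu (mem_iUnion.2 ⟨_, x⟩)) p).mono ?_)
    intro b hb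
    exact mem_biUnion ⟨b, hb.1, rfl⟩ ⟨hb.1, e ▸ hb.2, rfl⟩
  have : #T1.{u} ≤ #C := mk_le_of_injective (f := J) fun α β e => by
    rcases lt_trichotomy α β with l | l | l
    exacts [absurd e (lt _ _ l), l, absurd e.symm (lt _ _ l)]
  rw [t1m] at this
  exact this.not_gt hC

end Pool.Agent.J6H40.HCA
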